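import Pool.Agent.H2.ST.Targets

set_option autoImplicit false

namespace Pool.Agent.H57.ST2

open Pool.Agent.H2.ST MvPolynomial

section

variable {k : Type} [Field k] {m : ℕ} {Γ : Type} [AddCommGroup Γ]
  {W : Γ → Submodule k (Pol k m)}

/-- the components of a bracket -/
theorem cmp_br [DecidableEq Γ] (h : PGr W) (g G : Pol k m) (b : Γ) :
    cmp h.toGr (br g G) b = ∑ x ∈ (cmp h.toGr g).support, ∑ y ∈ (cmp h.toGr G).support,
      if x + y = b then br (cmp h.toGr g x) (cmp h.toGr G y) else 0 := by
  have e1 : br g G = ∑ x ∈ (cmp h.toGr g).support, ∑ y ∈ (cmp h.toGr G).support,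
      br (cmp h.toGr g x) (cmp h.toGr G y) := by
    have a1 : g = ∑ x ∈ (cmp h.toGr g).support, cmp h.toGr g x := (cmp_sum h.toGr g).symm
    have a2 : G = ∑ y ∈ (cmp h.toGr G).support, cmp h.toGr G y := (cmp_sum h.toGr G).symm
    conv_lhs => rw [a1, a2]
    rw [sum_br]
    exact Finset.sum_congr rfl fun x _ => br_sum _ _ _
  rw [e1, map_sum, Finsupp.finsetSum_apply]
  refine Finset.sum_congr rfl fun x _ => ?_
  rw [map_sum, Finsupp.finsetSum_apply]
  refine Finset.sum_congr rfl fun y _ => ?_
  rw [cmp_of_mem h.toGr (h.pbr _ _ _ _ (cmp_mem h.toGr g x) (cmp_mem h.toGr G y)),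
    Finsupp.single_apply]

theorem nil_add (D : Pol k m → Pol k m) (hD : ∀ a b, D (a + b) = D a + D b) (f f' : Pol k m)
    (hf : ∃ n : ℕ, D^[n] f = 0) (hf' : ∃ n : ℕ, D^[n] f' = 0) : ∃ n : ℕ, D^[n] (f + f') = 0 := by
  have hD0 : D 0 = 0 := by
    have := hD 0 0
    rw [add_zero] at this
    exact (add_eq_left.1 this.symm)
  have h0 : ∀ n : ℕ, D^[n] 0 = 0 := by
    intro n
    induction n with
    | zero => rfl
    | succ n ih => rw [Function.iterate_succ_apply', ih, hD0]
  have ha : ∀ (n : ℕ) (a b : Pol k m), D^[n] (a + b) = D^[n] a + D^[n] b := by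
    intro n
    induction n with
    | zero => intro a b; rfl
    | succ n ih =>
      intro a b
      rw [Function.iterate_succ_apply', ih, hD, Function.iterate_succ_apply',
        Function.iterate_succ_apply']
  obtain ⟨n, hn⟩ := hf
  obtain ⟨n', hn'⟩ := hf'
  refine ⟨n + n', ?_⟩
  have e1 : D^[n + n'] f = 0 := by
    rw [Nat.add_comm n n', Function.iterate_add_apply, hn, h0]
  have e2 : D^[n + n'] f' = 0 := by
    rw [Function.iterate_add_apply, hn', h0]
  rw [ha, e1, e2, add_zero]

end

theorem pf_TOP : T_TOP := by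
  intro k _ _ m Γ _ _ _ W h g a hg ha
  classical
  -- one step
  have step : ∀ (G : Pol k m) (c0 : Γ), (∀ b, c0 < b → cmp h.toGr G b = 0) →
      (∀ b, a + c0 < b → cmp h.toGr (br g G) b = 0) ∧
      cmp h.toGr (br g G) (a + c0) = br (cmp h.toGr g a) (cmp h.toGr G c0) := by
    intro G c0 hG
    have hx : ∀ x ∈ (cmp h.toGr g).support, x ≤ a := by
      intro x hx
      by_contra hlt
      exact (Finsupp.mem_support_iff.1 hx) (ha x (not_le.1 hlt))
    have hy : ∀ y ∈ (cmp h.toGr G).support, y ≤ c0 := by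
      intro y hy
      by_contra hlt
      exact (Finsupp.mem_support_iff.1 hy) (hG y (not_le.1 hlt))
    constructor
    · intro b hb
      rw [cmp_br h]
      refine Finset.sum_eq_zero fun x hx' => Finset.sum_eq_zero fun y hy' => ?_
      rw [if_neg]
      intro he
      exact absurd (add_le_add (hx x hx') (hy y hy')) (not_le.2 (by rw [he]; exact hb))
    · rw [cmp_br h, Finset.sum_eq_single a]
      · rw [Finset.sum_eq_single c0]
        · rw [if_pos rfl]
        · intro y _ hne
          rw [if_neg]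
          intro he
          exact hne (add_left_cancel he)
        · intro hc
          rw [if_pos rfl, Finsupp.notMem_support_iff.1 hc, br_zero]
      · intro x hx' hne
        refine Finset.sum_eq_zero fun y hy' => ?_
        rw [if_neg]
        intro he
        have h1 : x < a := lt_of_le_of_ne (hx x hx') hne
        exact absurd he (ne_of_lt (add_lt_add_of_lt_of_le h1 (hy y hy')))
      · intro hc
        refine Finset.sum_eq_zero fun y _ => ?_
        rw [Finsupp.notMem_support_iff.1 hc, zero_br, ite_self]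
  have iter : ∀ (b : Γ) (F : Pol k m), F ∈ W b → ∀ n : ℕ,
      (∀ c, b + n • a < c → cmp h.toGr ((br g)^[n] F) c = 0) ∧
      cmp h.toGr ((br g)^[n] F) (b + n • a) = (br (cmp h.toGr g a))^[n] F := by
    intro b F hF n
    induction n with
    | zero =>
      rw [zero_smul, add_zero, Function.iterate_zero, Function.iterate_zero]
      show (∀ c, b < c → cmp h.toGr F c = 0) ∧ cmp h.toGr F b = F
      rw [cmp_of_mem h.toGr hF]
      refine ⟨fun c hc => ?_, by rw [Finsupp.single_eq_same]⟩
      rw [Finsupp.single_apply, if_neg (ne_of_lt hc)]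
    | succ n ih =>
      have h1 := step ((br g)^[n] F) (b + n • a) ih.1
      have h2 : b + (n + 1) • a = a + (b + n • a) := by
        rw [succ_nsmul]; abel
      rw [h2, Function.iterate_succ_apply', Function.iterate_succ_apply', ← ih.2]
      exact h1
  have hhom : ∀ (b : Γ) (F : Pol k m), F ∈ W b → ∃ n : ℕ, (br (cmp h.toGr g a))^[n] F = 0 := by
    intro b F hF
    obtain ⟨n, hn⟩ := hg F
    refine ⟨n, ?_⟩
    rw [← (iter b F hF n).2, hn, map_zero]
    rfl
  intro f
  have hs : f = ∑ x ∈ (cmp h.toGr f).support, cmp h.toGr f x := (cmp_sum h.toGr f).symm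
  rw [hs]
  refine Finset.sum_induction _ (fun f => ∃ n : ℕ, (br (cmp h.toGr g a))^[n] f = 0)
    (fun x y hx hy => nil_add _ (br_add _) x y hx hy) ⟨0, rfl⟩ fun x _ =>
      hhom x _ (cmp_mem h.toGr f x)

end Pool.Agent.H57.ST2
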