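import Pool.Agent.H2.ST.Targets

set_option autoImplicit false

namespace Pool.Agent.H57.ST2

open Pool.Agent.H2.ST MvPolynomial

theorem lnd_br {k : Type} [Field k] {m : ℕ} (f : Pol k m)
    (hf : ∀ g, ∃ n : ℕ, (br f)^[n] g = 0) : LND (br f) :=
  ⟨br_add f, br_mul f, hf⟩

/-- elements commuting with a fixed element are closed under products of split coordinates -/
theorem br_mon {k : Type} [Field k] {m : ℕ} {Γ : Type} [AddCommGroup Γ] (w : Fin m → Γ)
    (u v : Fin m → Pol k m) (e : Fin m → ℤ) (he : ∀ i, w i = 0 → e i = 0) (g : Pol k m)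
    (hg : g ∈ Cen (act w u v)) : br g (mon u v e) = 0 := by
  have hpow : ∀ (p : Pol k m) (n : ℕ), br g p = 0 → br g (p ^ n) = 0 := by
    intro p n hp
    rw [br_pow, hp, mul_zero]
  unfold mon
  refine Finset.prod_induction _ (fun p => br g p = 0) ?_ (br_one g) ?_
  · intro a b ha hb
    show br g (a * b) = 0
    rw [br_mul, ha, hb, mul_zero, mul_zero, add_zero]
  · intro i _
    show br g (u i ^ (e i).toNat * v i ^ (- e i).toNat) = 0
    by_cases hi : w i = 0
    · rw [he i hi, neg_zero, Int.toNat_zero, pow_zero, pow_zero, mul_one, br_one]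
    · have h1 : br g (u i) = 0 := hg (u i) ⟨i, hi, Or.inl rfl⟩
      have h2 : br g (v i) = 0 := hg (v i) ⟨i, hi, Or.inr rfl⟩
      rw [br_mul, hpow _ _ h1, hpow _ _ h2, mul_zero, mul_zero, add_zero]

theorem pf_HMF (h1 : T_LDV) (h2 : T_LFC) (h3 : T_DVM) : T_HMF := by
  intro k _ _ m Γ _ W w π u v c hS hnil χ f hf hf0 hfn
  obtain ⟨e, he, hχ, g, hg0, hfg⟩ := h3 k m Γ W w π u v c hS χ f hf hf0
  have hlnd : LND (br f) := lnd_br f hfn
  have hne : mon u v e * g ≠ 0 := by rw [← hfg]; exact hf0
  have hg : g ∈ Cen (act w u v) := by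
    have key : ∀ i, w i ≠ 0 → br g (u i) = 0 ∧ br g (v i) = 0 := by
      intro i hi
      have hp := hS.par i hi
      have hcuv := hp.cuv 0 (map_zero _) g hg0
      by_cases hpos : 0 ≤ π i χ
      · have a1 : br f (u i) ∈ W (χ + w i) := hS.pbr _ _ _ _ hf hp.hu
        have a2 := hp.pos 1 (χ + w i) (by rw [map_add]; push_cast; linarith) _ a1
        rw [pow_one] at a2
        have a3 : br f (u i) = 0 := h1 (Pol k m) (br f) hlnd (u i) a2
        have a4 : br (u i) (mon u v e * g) = 0 := by
          rw [← hfg, br_anti, a3, neg_zero]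
        have a5 := (h2 (Pol k m) (br (u i)) (lnd_br _ fun x => (hnil i hi x).1) _ _ hne a4).2
        have a6 : br g (u i) = 0 := by rw [br_anti, a5, neg_zero]
        exact ⟨a6, hcuv.1 a6⟩
      · have a1 : br f (v i) ∈ W (χ + -w i) := hS.pbr _ _ _ _ hf hp.hv
        have a2 := hp.neg 1 (χ + -w i) (by rw [map_add, map_neg]; push_cast; linarith) _ a1
        rw [pow_one] at a2
        have a3 : br f (v i) = 0 := h1 (Pol k m) (br f) hlnd (v i) a2
        have a4 : br (v i) (mon u v e * g) = 0 := by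
          rw [← hfg, br_anti, a3, neg_zero]
        have a5 := (h2 (Pol k m) (br (v i)) (lnd_br _ fun x => (hnil i hi x).2) _ _ hne a4).2
        have a6 : br g (v i) = 0 := by rw [br_anti, a5, neg_zero]
        exact ⟨hcuv.2 a6, a6⟩
    rintro p ⟨i, hi, rfl | rfl⟩
    · exact (key i hi).1
    · exact (key i hi).2
  refine ⟨e, he, hχ, g, hg, hfg, ?_⟩
  intro g' hg'
  have hM0 : mon u v e ≠ 0 := left_ne_zero_of_mul hne
  have hit : ∀ n : ℕ, (br g)^[n] g' ∈ Cen (act w u v) := by
    intro n
    induction n with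
    | zero => exact hg'
    | succ n ih =>
      rw [Function.iterate_succ_apply']
      exact Cen_br hg ih
  have hfM : br f (mon u v e) = 0 := by
    rw [hfg, mul_br, br_mon w u v e he g hg, br_self, mul_zero, mul_zero, add_zero]
  have hcl : ∀ n : ℕ, (br f)^[n] g' = mon u v e ^ n * (br g)^[n] g' := by
    intro n
    induction n with
    | zero => simp
    | succ n ih =>
      rw [Function.iterate_succ_apply', ih, Function.iterate_succ_apply', br_mul, br_pow, hfM,
        mul_zero, mul_zero, add_zero]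
      have h5 : br (mon u v e) ((br g)^[n] g') = 0 := by
        rw [br_anti, br_mon w u v e he _ (hit n), neg_zero]
      have h6 : br f ((br g)^[n] g') = mon u v e * br g ((br g)^[n] g') := by
        conv_lhs => rw [hfg]
        rw [mul_br, h5, mul_zero, add_zero]
      rw [h6, pow_succ, mul_assoc]
  obtain ⟨n, hn⟩ := hfn g'
  refine ⟨n, ?_⟩
  rw [hcl n] at hn
  rcases mul_eq_zero.1 hn with h7 | h7
  · exact absurd h7 (pow_ne_zero n hM0)
  · exact h7

end Pool.Agent.H57.ST2
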